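import Pool.Agent.W792.WA.Stm

/-!
WA-SC1: the effective contraction stays in the disc.
-/

set_option autoImplicit false

namespace Pool.Agent.W378.WA.SC1

open MeasureTheory Pool.Agent.W792.WA

theorem pt {w s : ℂ} {q : ℝ} (hq : 0 ≤ q) (hw : ‖w‖ ≤ q) (hs : q * ‖s‖ < 1) :
    1 - w * s ≠ 0 ∧ ‖w / (1 - w * s)‖ ≤ q / (1 - q * ‖s‖) ∧
      ‖w / (1 - w * s)‖ ≤ q * ‖1 + s * (w / (1 - w * s))‖ := by
  have h1 : ‖w * s‖ ≤ q * ‖s‖ := by
    rw [norm_mul]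
    exact mul_le_mul_of_nonneg_right hw (norm_nonneg _)
  have h2 : 1 - q * ‖s‖ ≤ ‖1 - w * s‖ := by
    have := norm_sub_norm_le (1 : ℂ) (w * s)
    rw [norm_one] at this
    linarith
  have h3 : 0 < 1 - q * ‖s‖ := by linarith
  have h4 : 0 < ‖1 - w * s‖ := lt_of_lt_of_le h3 h2
  have h5 : 1 - w * s ≠ 0 := norm_pos_iff.1 h4
  refine ⟨h5, ?_, ?_⟩
  · rw [norm_div]
    exact div_le_div₀ hq hw h3 h2
  · have h6 : 1 + s * (w / (1 - w * s)) = 1 / (1 - w * s) := by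
      rw [eq_div_iff h5, add_mul, mul_assoc s, div_mul_cancel₀ _ h5]
      ring
    rw [h6, norm_div, norm_div, norm_one, mul_one_div]
    exact div_le_div_of_nonneg_right hw h4.le

theorem nsq (z : ℂ) : ‖z‖ ^ 2 = z.re ^ 2 + z.im ^ 2 := by
  rw [Complex.sq_norm, Complex.normSq_apply]
  ring

theorem quad {b s : ℂ} {q : ℝ} (h : ‖b‖ ≤ q * ‖1 + s * b‖) :
    (1 - q ^ 2 * ‖s‖ ^ 2) * ‖b‖ ^ 2 - 2 * q ^ 2 * (s * b).re - q ^ 2 ≤ 0 := by
  have h1 : ‖b‖ ^ 2 ≤ q ^ 2 * ‖1 + s * b‖ ^ 2 := by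
    have := pow_le_pow_left₀ (norm_nonneg b) h 2
    rwa [mul_pow] at this
  rw [nsq, nsq] at h1
  rw [nsq, nsq]
  simp only [Complex.add_re, Complex.mul_re, Complex.one_re, Complex.add_im, Complex.mul_im,
    Complex.one_im] at h1 ⊢
  nlinarith [h1]

theorem quad' {b s : ℂ} {q : ℝ} (hq : 0 ≤ q)
    (h : (1 - q ^ 2 * ‖s‖ ^ 2) * ‖b‖ ^ 2 - 2 * q ^ 2 * (s * b).re - q ^ 2 ≤ 0) :
    ‖b‖ ≤ q * ‖1 + s * b‖ := by
  have h1 : ‖b‖ ^ 2 ≤ (q * ‖1 + s * b‖) ^ 2 := by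
    rw [mul_pow, nsq b, nsq (1 + s * b)]
    rw [nsq, nsq] at h
    simp only [Complex.add_re, Complex.mul_re, Complex.one_re, Complex.add_im, Complex.mul_im,
      Complex.one_im] at h ⊢
    nlinarith [h]
  exact (pow_le_pow_iff_left₀ (norm_nonneg _) (mul_nonneg hq (norm_nonneg _)) two_ne_zero).1 h1

/-- the mean of `w / (1 - w s)` -/
theorem mean (ρ : Measure ℝ) [IsProbabilityMeasure ρ] (w : ℝ → ℂ) (q : ℝ) (s : ℂ)
    (hw : Measurable w) (hq : 0 ≤ q) (hwq : ∀ᵐ a ∂ρ, ‖w a‖ ≤ q) (hqs : q * ‖s‖ < 1) :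
    Integrable (fun a => w a / (1 - w a * s)) ρ ∧ ‖Bs ρ w s‖ ≤ q * ‖1 + s * Bs ρ w s‖ := by
  have hint : Integrable (fun a => w a / (1 - w a * s)) ρ := by
    refine Integrable.of_bound ?_ (q / (1 - q * ‖s‖)) ?_
    · exact (hw.div (measurable_const.sub (hw.mul_const s))).aestronglyMeasurable
    · filter_upwards [hwq] with a ha
      exact (pt hq ha hqs).2.1
  refine ⟨hint, ?_⟩
  apply quad' hq
  obtain ⟨B, hB⟩ : ∃ B, B = Bs ρ w s := ⟨_, rfl⟩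
  rw [← hB]
  obtain ⟨t, ht⟩ : ∃ t, t = 1 - q ^ 2 * ‖s‖ ^ 2 := ⟨_, rfl⟩
  rw [← ht]
  have ht0 : 0 ≤ t := by
    rw [ht]
    have h0 : 0 ≤ q * ‖s‖ := mul_nonneg hq (norm_nonneg _)
    nlinarith
  obtain ⟨c, hc⟩ : ∃ c : ℂ, c = 2 * (t : ℂ) * (starRingEnd ℂ) B - 2 * ((q ^ 2 : ℝ) : ℂ) * s :=
    ⟨_, rfl⟩
  have hre : ∀ b : ℂ, (c * b).re = 2 * t * (B.re * b.re + B.im * b.im) -
      2 * q ^ 2 * (s * b).re := by
    intro b
    rw [hc]
    simp only [Complex.mul_re, Complex.sub_re, Complex.mul_im, Complex.sub_im, Complex.conj_re,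
      Complex.conj_im, Complex.ofReal_re, Complex.ofReal_im, Complex.re_ofNat, Complex.im_ofNat]
    ring
  have hpt : ∀ᵐ a ∂ρ, (c * (w a / (1 - w a * s))).re - (t * ‖B‖ ^ 2 + q ^ 2) ≤ 0 := by
    filter_upwards [hwq] with a ha
    have h1 := quad (pt hq ha hqs).2.2
    rw [← ht] at h1
    obtain ⟨b, hb⟩ : ∃ b, b = w a / (1 - w a * s) := ⟨_, rfl⟩
    rw [← hb] at h1 ⊢
    rw [hre]
    have h2 : 2 * (B.re * b.re + B.im * b.im) - ‖B‖ ^ 2 ≤ ‖b‖ ^ 2 := by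
      rw [nsq, nsq]
      nlinarith [sq_nonneg (B.re - b.re), sq_nonneg (B.im - b.im)]
    nlinarith [mul_le_mul_of_nonneg_left h2 ht0]
  have hi := hint.const_mul c
  have hi2 : Integrable (fun a => (c * (w a / (1 - w a * s))).re) ρ := hi.re
  have h3 : ∫ a, ((c * (w a / (1 - w a * s))).re - (t * ‖B‖ ^ 2 + q ^ 2)) ∂ρ ≤ 0 :=
    integral_nonpos_of_ae hpt
  rw [integral_sub hi2 (integrable_const _), integral_const] at h3
  have h4 : ∫ a, (c * (w a / (1 - w a * s))).re ∂ρ = (c * B).re := by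
    rw [hB, Bs, ← integral_const_mul]
    exact integral_re hi
  rw [h4, hre] at h3
  simp only [probReal_univ, smul_eq_mul, one_mul] at h3
  have h5 : B.re * B.re + B.im * B.im = ‖B‖ ^ 2 := by rw [nsq]; ring
  rw [h5] at h3
  linarith

theorem main : S_SC1 := by
  intro ρ _ w q s hw hq hq1 hwq hs hqs
  obtain ⟨hint, hB⟩ := mean ρ w q s hw hq hwq hqs
  have h0 : 1 + s * Bs ρ w s ≠ 0 := by
    intro h
    rw [h, norm_zero, mul_zero] at hB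
    have h1 : Bs ρ w s = 0 := norm_le_zero_iff.1 hB
    rw [h1, mul_zero, add_zero] at h
    exact one_ne_zero h
  have h0' : 0 < ‖1 + s * Bs ρ w s‖ := norm_pos_iff.2 h0
  have h1 : 1 - Us ρ w s * s = 1 / (1 + s * Bs ρ w s) := by
    unfold Us
    rw [eq_div_iff h0, sub_mul, div_mul_eq_mul_div, div_mul_cancel₀ _ h0]
    ring
  refine ⟨?_, h0, ?_, ?_, ?_⟩
  · filter_upwards [hwq] with a ha
    exact (pt hq ha hqs).1
  · unfold Us
    rw [norm_div]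
    exact (div_le_iff₀ h0').2 hB
  · rw [h1]
    exact one_div_ne_zero h0
  · rw [h1]
    unfold Us
    rw [div_div_div_cancel_right₀ h0, div_one]

end Pool.Agent.W378.WA.SC1
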